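import Mathlib

/-!
# MP_efa98f_al: the involution modulo `d`
-/

set_option autoImplicit false

namespace Pool.Agent.Lib.MP_efa98f_al.Inv45

theorem crt_part (c d : ℤ) (hd : d ≠ 0) (h : IsCoprime c d) (h12 : (12 : ℤ) ∣ d) :
    ((12 : ℤ) ∣ c - 1 ∨ (12 : ℤ) ∣ c + 1) ∨ ∃ n g1 d' g2 : ℤ, d = n * d' ∧ n * g1 + 2 = d' * g2 ∧
      ((12 : ℤ) ∣ (1 + n * g1) * c - 1 ∨ (12 : ℤ) ∣ (1 + n * g1) * c + 1) ∧
      IsCoprime ((1 + n * g1) * c) d := by
  by_cases hc1 : (12 : ℤ) ∣ c - 1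
  · exact Or.inl (Or.inl hc1)
  by_cases hc2 : (12 : ℤ) ∣ c + 1
  · exact Or.inl (Or.inr hc2)
  right
  -- c mod 12
  have hc12 : IsCoprime c 12 := h.of_isCoprime_of_dvd_right h12
  have hc5 : c % 12 = 5 ∨ c % 12 = 7 := by
    obtain ⟨u, v, huv⟩ := hc12
    have h2 : c % 2 ≠ 0 := by
      intro h0
      have : (2 : ℤ) ∣ 1 := by
        rw [← huv]
        exact dvd_add (Dvd.dvd.mul_left (Int.dvd_of_emod_eq_zero h0) _) (Dvd.dvd.mul_left (by norm_num) _)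
      omega
    have h3 : c % 3 ≠ 0 := by
      intro h0
      have : (3 : ℤ) ∣ 1 := by
        rw [← huv]
        exact dvd_add (Dvd.dvd.mul_left (Int.dvd_of_emod_eq_zero h0) _) (Dvd.dvd.mul_left (by norm_num) _)
      omega
    have e2 : c % 12 % 2 ≠ 0 := by omega
    have e3 : c % 12 % 3 ≠ 0 := by omega
    have e1 : c % 12 ≠ 1 := by omega
    have e11 : c % 12 ≠ 11 := by omega
    have l0 : 0 ≤ c % 12 := Int.emod_nonneg _ (by norm_num)
    have l1 : c % 12 < 12 := Int.emod_lt_of_pos _ (by norm_num)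
    generalize c % 12 = r at e2 e3 e1 e11 l0 l1 ⊢
    interval_cases r <;> simp_all
  -- the factorisation
  obtain ⟨k, m, hm, hkm⟩ := Nat.exists_eq_two_pow_mul_odd (Int.natAbs_ne_zero.2 hd)
  have h12n : 12 ∣ 2 ^ k * m := by
    rw [← hkm]
    exact Int.natCast_dvd.1 (by exact_mod_cast h12)
  have h4 : 4 ∣ 2 ^ k := by
    have e1 : Nat.Coprime 4 m := by
      have : Nat.Coprime (2 ^ 2) m := Nat.Coprime.pow_left 2 (Nat.coprime_two_left.2 hm)
      exact this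
    exact e1.dvd_of_dvd_mul_right (dvd_trans (by norm_num) h12n)
  have h3 : 3 ∣ m := by
    have e1 : Nat.Coprime 3 (2 ^ k) := Nat.Coprime.pow_right k (by norm_num)
    exact e1.dvd_of_dvd_mul_left (dvd_trans (by norm_num) h12n)
  have hcop : Nat.Coprime (2 ^ k) m := Nat.Coprime.pow_left k (Nat.coprime_two_left.2 hm)
  obtain ⟨d', hd', hdd, h3d⟩ : ∃ d' : ℤ, IsCoprime ((2 : ℤ) ^ k) d' ∧ d = 2 ^ k * d' ∧ (3 : ℤ) ∣ d' := by
    have hcz : IsCoprime ((2 : ℤ) ^ k) (m : ℤ) := by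
      have := Nat.isCoprime_iff_coprime.2 hcop
      exact_mod_cast this
    rcases Int.natAbs_eq d with h1 | h1
    · refine ⟨m, hcz, ?_, by exact_mod_cast h3⟩
      rw [h1, hkm]; push_cast; ring
    · refine ⟨-m, hcz.neg_right, ?_, ?_⟩
      · rw [h1, hkm]; push_cast; ring
      · exact (dvd_neg.2 (by exact_mod_cast h3))
  obtain ⟨α, β, hab⟩ := hd'
  have h4z : (4 : ℤ) ∣ 2 ^ k := by exact_mod_cast h4
  refine ⟨2 ^ k, -2 * α, d', 2 * β, hdd, by linear_combination (-2) * hab, ?_, ?_⟩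
  · -- x0 = 5 mod 12
    obtain ⟨u, hu⟩ := h4z
    obtain ⟨w, hw⟩ := h3d
    have hx4 : (4 : ℤ) ∣ (1 + 2 ^ k * (-2 * α)) - 5 := ⟨-2 * u * α - 1, by rw [hu]; ring⟩
    have hx3 : (3 : ℤ) ∣ (1 + 2 ^ k * (-2 * α)) - 5 := by
      refine ⟨2 * β * w - 2, ?_⟩
      rw [hw] at hab
      linear_combination (-2) * hab
    generalize (1 + 2 ^ k * (-2 * α) : ℤ) = X at hx4 hx3 ⊢
    have hX : X % 12 = 5 := by omega
    rcases hc5 with h5 | h7
    · left
      have : (X * c) % 12 = 1 := by rw [Int.mul_emod, hX, h5]; norm_num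
      omega
    · right
      have : (X * c) % 12 = 11 := by rw [Int.mul_emod, hX, h7]; norm_num
      omega
  · refine IsCoprime.mul_left ?_ h
    refine ⟨1 + 2 ^ k * (-2 * α), 4 * α * β, ?_⟩
    rw [hdd]
    linear_combination (4 * α * 2 ^ k) * hab

end Pool.Agent.Lib.MP_efa98f_al.Inv45
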