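import Mathlib

namespace Pool.Agent.Lib.MP_efa98f_al.U77

theorem cop_part (q P : ℕ) (hq : q.Prime) (h12 : q % 12 = 11)
    (h : ∀ l : ℕ, l.Prime → 5 ≤ l → l ∣ P → q % l ≠ 1) : Nat.Coprime (q / 2) (2 * P) := by
  have _ := hq
  by_contra hc
  obtain ⟨l, hl, h1, h2⟩ := Nat.Prime.not_coprime_iff_dvd.1 hc
  have hne2 : l ≠ 2 := by
    rintro rfl
    omega
  have hne3 : l ≠ 3 := by
    rintro rfl
    omega
  have hne4 : l ≠ 4 := by
    rintro rfl
    exact absurd hl (by norm_num)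
  have h5 : 5 ≤ l := by
    have := hl.two_le
    omega
  have hP : l ∣ P := by
    rcases (Nat.Prime.dvd_mul hl).1 h2 with h3 | h3
    · have := Nat.le_of_dvd (by norm_num) h3
      omega
    · exact h3
  refine h l hl h5 hP ?_
  obtain ⟨k, hk⟩ := h1
  have hq2 : q = 1 + l * (2 * k) := by
    have : q = 2 * (q / 2) + 1 := by omega
    rw [this, hk]
    ring
  rw [hq2, Nat.add_mul_mod_self_left, Nat.mod_eq_of_lt (by omega)]

end Pool.Agent.Lib.MP_efa98f_al.U77
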