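import Mathlib

set_option autoImplicit false

namespace Pool.Agent.Lib.MP_efa98f_al.U77

theorem euler_part (q : ℕ) (hq : q.Prime) (_hq4 : q % 4 = 3) (d : ℤ) (r : ℕ) (hr : q / 2 ∣ r)
    (hodd : r % 2 = 1) : (q : ℤ) ∣ d ^ r - jacobiSym d q := by
  have : Fact q.Prime := ⟨hq⟩
  obtain ⟨m, rfl⟩ := hr
  have hm : Odd m := by
    rcases Nat.even_or_odd m with h | h
    · exfalso
      obtain ⟨k, rfl⟩ := h
      rw [← two_mul, Nat.mul_left_comm, Nat.mul_mod_right] at hodd
      omega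
    · exact h
  rw [← jacobiSym.legendreSym.to_jacobiSym]
  rw [← ZMod.intCast_zmod_eq_zero_iff_dvd]
  push_cast
  rw [pow_mul, ← legendreSym.eq_pow q d]
  have h3 : (legendreSym q d) ^ m = legendreSym q d := by
    by_cases h0 : legendreSym q d = 0
    · rw [h0]
      exact zero_pow (by rintro rfl; simp at hm)
    · have hd0 : ((d : ℤ) : ZMod q) ≠ 0 := fun h => h0 ((legendreSym.eq_zero_iff q d).2 h)
      rcases legendreSym.eq_one_or_neg_one q hd0 with h | h
      · rw [h, one_pow]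
      · rw [h, hm.neg_one_pow]
  have h4 : ((legendreSym q d : ℤ) : ZMod q) ^ m = ((legendreSym q d : ℤ) : ZMod q) := by
    rw [← Int.cast_pow, h3]
  rw [h4, sub_self]

end Pool.Agent.Lib.MP_efa98f_al.U77
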