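import Mathlib

set_option autoImplicit false

namespace Pool.Agent.Lib.MP_efa98f_al.U77

theorem exists_T (c d : ℤ) (h : IsCoprime c d)
    (h12 : ¬ (12 : ℤ) ∣ d ∨ (12 : ℤ) ∣ c - 1 ∨ (12 : ℤ) ∣ c + 1) (hd : d ≠ 0) (B : ℕ) :
    ∃ T : ℕ, T.Prime ∧ B < T ∧ T % 12 = 1 ∧ (d ∣ T * c - 1 ∨ d ∣ T * c + 1) := by
  obtain ⟨u, v, huv⟩ := h
  -- u * c + v * d = 1
  have hu : IsCoprime u d := ⟨c, v, by linarith [huv, mul_comm u c]⟩
  -- sign
  have hsign : ∃ e : ℤ, (e = 1 ∨ e = -1) ∧ (Int.gcd d 12 : ℤ) ∣ e * u - 1 := by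
    have hg : (Int.gcd d 12) ∣ 12 := by
      have := Int.gcd_dvd_right d 12
      exact_mod_cast this
    have hg1 : (Int.gcd d 12 : ℤ) ∣ d := Int.gcd_dvd_left d 12
    have hug : IsCoprime u (Int.gcd d 12 : ℤ) := hu.of_isCoprime_of_dvd_right hg1
    have hle : Int.gcd d 12 ≤ 12 := Nat.le_of_dvd (by norm_num) hg
    by_cases hne : Int.gcd d 12 = 12
    · have h12d : (12 : ℤ) ∣ d := by
        rw [hne] at hg1
        exact_mod_cast hg1
      rw [hne]
      obtain ⟨m, hm⟩ := h12d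
      rcases h12 with h0 | ⟨n, hn⟩ | ⟨n, hn⟩
      · exact absurd ⟨m, hm⟩ h0
      · refine ⟨1, Or.inl rfl, ⟨-(u * n + v * m), ?_⟩⟩
        push_cast
        have hc : c = 12 * n + 1 := by linarith
        rw [hc, hm] at huv
        linear_combination huv
      · refine ⟨-1, Or.inr rfl, ⟨-(u * n + v * m), ?_⟩⟩
        push_cast
        have hc : c = 12 * n - 1 := by linarith
        rw [hc, hm] at huv
        linear_combination huv
    generalize Int.gcd d 12 = g at *
    have hpos : 0 < g := Nat.pos_of_dvd_of_pos hg (by norm_num)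
    have key : g = 1 ∨ g = 2 ∨ g = 3 ∨ g = 4 ∨ g = 6 := by
      interval_cases g <;> omega
    rcases key with rfl | rfl | rfl | rfl | rfl
    · exact ⟨1, Or.inl rfl, by simp⟩
    · refine ⟨1, Or.inl rfl, ?_⟩
      obtain ⟨a, b, hab⟩ := hug
      have : ¬ (2 : ℤ) ∣ u := by
        rintro ⟨k, rfl⟩
        have : (2 : ℤ) ∣ 1 := ⟨a * k + b, by push_cast at hab; linarith⟩
        norm_num at this
      push_cast
      omega
    · obtain ⟨a, b, hab⟩ := hug
      have h3 : ¬ (3 : ℤ) ∣ u := by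
        rintro ⟨k, rfl⟩
        have : (3 : ℤ) ∣ 1 := ⟨a * k + b, by push_cast at hab; linarith⟩
        norm_num at this
      have : u % 3 = 1 ∨ u % 3 = 2 := by omega
      rcases this with h | h
      · exact ⟨1, Or.inl rfl, by push_cast; omega⟩
      · exact ⟨-1, Or.inr rfl, by push_cast; omega⟩
    · obtain ⟨a, b, hab⟩ := hug
      have h2 : ¬ (2 : ℤ) ∣ u := by
        rintro ⟨k, rfl⟩
        have : (2 : ℤ) ∣ 1 := ⟨a * k + 2 * b, by push_cast at hab; linarith⟩
        norm_num at this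
      have : u % 4 = 1 ∨ u % 4 = 3 := by omega
      rcases this with h | h
      · exact ⟨1, Or.inl rfl, by push_cast; omega⟩
      · exact ⟨-1, Or.inr rfl, by push_cast; omega⟩
    · obtain ⟨a, b, hab⟩ := hug
      have h2 : ¬ (2 : ℤ) ∣ u := by
        rintro ⟨k, rfl⟩
        have : (2 : ℤ) ∣ 1 := ⟨a * k + 3 * b, by push_cast at hab; linarith⟩
        norm_num at this
      have h3 : ¬ (3 : ℤ) ∣ u := by
        rintro ⟨k, rfl⟩
        have : (3 : ℤ) ∣ 1 := ⟨a * k + 2 * b, by push_cast at hab; linarith⟩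
        norm_num at this
      have : u % 6 = 1 ∨ u % 6 = 5 := by omega
      rcases this with h | h
      · exact ⟨1, Or.inl rfl, by push_cast; omega⟩
      · exact ⟨-1, Or.inr rfl, by push_cast; omega⟩
  obtain ⟨e, he, k, hk⟩ := hsign
  have hb := Int.gcd_eq_gcd_ab d 12
  set X := Int.gcdA d 12
  set Y := Int.gcdB d 12
  -- g = d * X + 12 * Y ; e * u - 1 = g * k
  set t : ℤ := 1 + 12 * Y * k with ht
  have ht' : t = e * u - d * X * k := by
    rw [ht]
    rw [hb] at hk
    linarith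
  have he2 : e * e = 1 := by rcases he with rfl | rfl <;> norm_num
  have htd : IsCoprime t d := by
    refine ⟨e * c, v + e * c * (X * k), ?_⟩
    rw [ht']
    have : e * c * (e * u - d * X * k) + (v + e * c * (X * k)) * d = (e * e) * (u * c) + v * d := by
      ring
    rw [this, he2, one_mul, huv]
  have ht12 : IsCoprime t 12 := ⟨1, -(Y * k), by rw [ht]; ring⟩
  have hco : IsCoprime t ((12 * d.natAbs : ℕ) : ℤ) := by
    push_cast
    refine IsCoprime.mul_right ht12 ?_
    rcases abs_choice d with h | h <;> rw [h]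
    · exact htd
    · exact htd.neg_right
  have hq : 12 * d.natAbs ≠ 0 := by
    have := Int.natAbs_ne_zero.mpr hd
    positivity
  obtain ⟨T, hBT, hT, hTt⟩ := Nat.forall_exists_prime_gt_and_zmodEq B hq hco
  have h1 : (T : ℤ) ≡ t [ZMOD 12] := hTt.of_dvd (by push_cast; exact Dvd.intro _ rfl)
  have h2 : (T : ℤ) ≡ t [ZMOD d] := hTt.of_dvd (by
    push_cast
    exact Dvd.dvd.mul_left (by rw [dvd_abs]) _)
  refine ⟨T, hT, hBT, ?_, ?_⟩
  · have h3 : t ≡ 1 [ZMOD 12] := by
      rw [ht]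
      exact (Int.modEq_iff_dvd.mpr ⟨-(Y * k), by ring⟩)
    have h4 := h1.trans h3
    have h5 : (T : ℤ) % 12 = 1 := by
      rw [h4]; norm_num
    omega
  · obtain ⟨j, hj⟩ := h2.dvd
    -- t - T = d * j
    have hT' : (T : ℤ) = t - d * j := by linarith
    rcases he with rfl | rfl
    · left
      refine ⟨-(v + (X * k + j) * c), ?_⟩
      rw [hT', ht']
      linear_combination huv
    · right
      refine ⟨v - (X * k + j) * c, ?_⟩
      rw [hT', ht']
      linear_combination -huv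

end Pool.Agent.Lib.MP_efa98f_al.U77
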