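import Mathlib

set_option autoImplicit false

namespace Pool.Agent.Lib.MP_efa98f_al.U77

theorem exists_v (K T : ℕ) (hK : K ≠ 0) (h12 : 12 ∣ K) (hT12 : T % 12 = 1) :
    ∃ v : ℕ, Nat.Coprime v K ∧ v % 12 = 11 ∧ ∀ l : ℕ, l.Prime → 5 ≤ l → l ∣ K →
      ((l ∣ T + 1 → v % l = 2) ∧ (¬ l ∣ T + 1 → l ∣ v + 1)) := by
  classical
  obtain ⟨P, hP⟩ : ∃ P, P = ∏ l ∈ K.primeFactors.filter (fun l => 5 ≤ l ∧ l ∣ T + 1), l := ⟨_, rfl⟩
  obtain ⟨R, hR⟩ : ∃ R, R = ∏ l ∈ K.primeFactors.filter (fun l => 5 ≤ l ∧ ¬ l ∣ T + 1), l := ⟨_, rfl⟩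
  have hRpos : 0 < R := by
    rw [hR]
    exact Finset.prod_pos fun l hl => (Nat.prime_of_mem_primeFactors (Finset.mem_filter.1 hl).1).pos
  have hcop : Nat.Coprime P (12 * R) := by
    refine Nat.Coprime.mul_right ?_ ?_
    · rw [hP]
      refine Nat.Coprime.prod_left fun l hl => ?_
      obtain ⟨h1, h2, h3⟩ := Finset.mem_filter.1 hl
      have hlp := Nat.prime_of_mem_primeFactors h1
      refine (Nat.Prime.coprime_iff_not_dvd hlp).2 fun h4 => ?_
      have h5 : l ≤ 12 := Nat.le_of_dvd (by norm_num) h4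
      interval_cases l <;> revert hlp h4 <;> decide
    · rw [hP, hR]
      refine Nat.Coprime.prod_left fun l hl => Nat.Coprime.prod_right fun m hm => ?_
      obtain ⟨h1, h2, h3⟩ := Finset.mem_filter.1 hl
      obtain ⟨g1, g2, g3⟩ := Finset.mem_filter.1 hm
      refine (Nat.coprime_primes (Nat.prime_of_mem_primeFactors h1)
        (Nat.prime_of_mem_primeFactors g1)).2 ?_
      rintro rfl
      exact g3 h3
  obtain ⟨v, hv1, hv2⟩ := Nat.chineseRemainder hcop 2 (12 * R - 1)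
  have hv12 : v % 12 = 11 := by
    have h1 : v ≡ 12 * R - 1 [MOD 12] := Nat.ModEq.of_dvd (Dvd.intro _ rfl) hv2
    have h2 : v % 12 = (12 * R - 1) % 12 := h1
    omega
  have hl : ∀ l : ℕ, l.Prime → 5 ≤ l → l ∣ K →
      ((l ∣ T + 1 → v % l = 2) ∧ (¬ l ∣ T + 1 → l ∣ v + 1)) := by
    intro l hlp hl5 hlK
    constructor
    · intro h1
      have h2 : l ∣ P := by
        rw [hP]
        exact Finset.dvd_prod_of_mem (fun l => l)
          (Finset.mem_filter.2 ⟨Nat.mem_primeFactors.2 ⟨hlp, hlK, hK⟩, hl5, h1⟩)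
      have h3 : v % l = 2 % l := Nat.ModEq.of_dvd h2 hv1
      rw [h3]
      exact Nat.mod_eq_of_lt (by omega)
    · intro h1
      have h2 : l ∣ R := by
        rw [hR]
        exact Finset.dvd_prod_of_mem (fun l => l)
          (Finset.mem_filter.2 ⟨Nat.mem_primeFactors.2 ⟨hlp, hlK, hK⟩, hl5, h1⟩)
      have h3 : v ≡ 12 * R - 1 [MOD l] := Nat.ModEq.of_dvd (h2.mul_left 12) hv2
      have h4 : v + 1 ≡ 12 * R - 1 + 1 [MOD l] := h3.add_right 1
      have h5 : 12 * R - 1 + 1 = 12 * R := by omega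
      rw [h5] at h4
      exact (Nat.modEq_zero_iff_dvd.1 (h4.trans (Nat.modEq_zero_iff_dvd.2 (h2.mul_left 12))))
  refine ⟨v, ?_, hv12, hl⟩
  rw [Nat.coprime_iff_gcd_eq_one]
  by_contra hcon
  obtain ⟨p, hp, hpv, hpK⟩ := Nat.Prime.not_coprime_iff_dvd.1 hcon
  by_cases h5 : 5 ≤ p
  · obtain ⟨h1, h2⟩ := hl p hp h5 hpK
    by_cases h3 : p ∣ T + 1
    · have := h1 h3
      have h4 := Nat.mod_eq_zero_of_dvd hpv
      omega
    · have h4 := (Nat.dvd_add_right hpv).1 (h2 h3)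
      exact hp.one_lt.ne' (Nat.dvd_one.1 h4)
  · have h2 := hp.two_le
    have h6 : p = 2 ∨ p = 3 ∨ p = 4 := by omega
    rcases h6 with rfl | rfl | rfl
    · omega
    · omega
    · revert hp
      decide

end Pool.Agent.Lib.MP_efa98f_al.U77
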