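import Pool.Agent.Lib.MP_efa98f_al.U77.Choice
import Pool.Agent.Lib.MP_efa98f_al.U77.Euler
import Pool.Agent.Lib.MP_efa98f_al.U77.Cop
import Pool.Agent.Lib.MP_efa98f_al.U77.ExistsV
import Pool.Agent.Lib.MP_efa98f_al.U77.ExistsT
import Pool.Agent.Lib.MP_efa98f_al.From84

/-!
# MP_efa98f_al: for coprime `c, d` (`12 ∤ d` or `c = ±1 mod 12`) some order `ℤ[θ]`,
`θ² - tθ + d = 0`, has a unit `x + yθ` with `x = c mod d`
-/

set_option linter.style.haveILetI false

namespace Pool.Agent.Lib.MP_efa98f_al.U77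

/-- what `from_primes` needs of a good prime -/
theorem good_spec {K : ℕ} {d e : ℤ} {q : ℕ} (he : e = 1 ∨ e = -1)
    (hphi : d.natAbs.totient ∣ K) (h : Good K d e q) :
    q.Prime ∧ q % 4 = 3 ∧ Nat.Coprime ((q - 1) / 2) (Nat.totient d.natAbs) ∧
      (q : ℤ) ∣ d ^ ((q - 1) / 2) - e ∧ IsCoprime (q : ℤ) d := by
  obtain ⟨h1, h2, h3, h4⟩ := h
  have hq4 : q % 4 = 3 := by omega
  have hhalf : (q - 1) / 2 = q / 2 := by omega
  refine ⟨h1, hq4, ?_, ?_, ?_⟩
  · rw [hhalf]
    have := cop_part q d.natAbs.totient h1 h2 fun l hl h5 hd' => h4 l hl h5 (dvd_trans hd' hphi)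
    exact Nat.Coprime.coprime_dvd_right (Dvd.intro_left 2 rfl) this
  · rw [hhalf]
    have := euler_part q h1 hq4 d (q / 2) (dvd_refl _) (by omega)
    rw [h3] at this
    exact this
  · have hq0 : jacobiSym d q ≠ 0 := by
      rw [h3]; rcases he with h | h <;> rw [h] <;> norm_num
    haveI : NeZero q := ⟨h1.ne_zero⟩
    have hg : d.gcd q = 1 := by
      by_contra hne
      exact hq0 (jacobiSym.eq_zero_iff_not_coprime.mpr hne)
    exact (Int.isCoprime_iff_gcd_eq_one.mpr hg).symm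

theorem unit_exists (c d : ℤ) (h : IsCoprime c d)
    (h12 : ¬ (12 : ℤ) ∣ d ∨ (12 : ℤ) ∣ c - 1 ∨ (12 : ℤ) ∣ c + 1) :
    ∃ t x y : ℤ, (x ^ 2 + t * x * y + d * y ^ 2 = 1 ∨ x ^ 2 + t * x * y + d * y ^ 2 = -1) ∧
      d ∣ x - c := by
  by_cases hd : d = 0
  · subst hd
    have hc : IsUnit c := isCoprime_zero_right.mp h
    rcases Int.isUnit_iff.mp hc with hc | hc
    · exact ⟨0, 1, 0, Or.inl (by norm_num), by rw [hc]; simp⟩
    · exact ⟨0, -1, 0, Or.inl (by norm_num), by rw [hc]; simp⟩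
  set K : ℕ := 12 * d.natAbs * d.natAbs.totient with hKdef
  have hdpos : 0 < d.natAbs := Int.natAbs_pos.mpr hd
  have hphi : 0 < d.natAbs.totient := Nat.totient_pos.mpr hdpos
  have hK : K ≠ 0 := by positivity
  have hK4 : 4 * d.natAbs ∣ K := ⟨3 * d.natAbs.totient, by rw [hKdef]; ring⟩
  have hK12 : 12 ∣ K := ⟨d.natAbs * d.natAbs.totient, by rw [hKdef]; ring⟩
  have hKphi : d.natAbs.totient ∣ K := ⟨12 * d.natAbs, by rw [hKdef]; ring⟩
  have hKd : d ∣ (K : ℤ) := by
    have h1 : d.natAbs ∣ K := dvd_trans (Dvd.intro_left 4 rfl) hK4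
    exact Int.natAbs_dvd.mp (by exact_mod_cast h1)
  obtain ⟨T, hT, hTB, hT12, hTc⟩ := exists_T c d h h12 hd K
  have hTK : Nat.Coprime T K := cop_of_lt hK hT hTB
  obtain ⟨v, hvK, hv12, hv⟩ := exists_v K T hK hK12 hT12
  rcases choice hK hK4 hK12 hTK hT12 hvK hv12 hv with
    ⟨e, q1, q2, he, h1, g1, g2, hp⟩ | ⟨e, q1, q2, q3, he, h1, h2, g1, g2, g3, hp⟩
  · refine Exp84.from_primes c d hd e he [q1, q2] ?_ ?_ ?_
    · simp only [List.nodup_cons, List.mem_cons, List.not_mem_nil, or_false, not_false_eq_true,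
        List.nodup_nil, and_true]
      omega
    · intro q hq
      simp only [List.mem_cons, List.not_mem_nil, or_false] at hq
      rcases hq with rfl | rfl
      · exact good_spec he hKphi g1
      · exact good_spec he hKphi g2
    · have hz : d ∣ ((q1 * q2 : ℕ) : ℤ) - T := by
        have h3 : ((T : ℕ) : ℤ) ≡ ((q1 * q2 : ℕ) : ℤ) [ZMOD (K : ℤ)] :=
          (Int.natCast_modEq_iff.mpr hp).symm
        exact dvd_trans hKd h3.dvd
      simp only [List.prod_cons, List.prod_nil, mul_one]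
      rcases hTc with h3 | h3
      · left
        have : ((q1 * q2 : ℕ) : ℤ) * c - 1 = (((q1 * q2 : ℕ) : ℤ) - T) * c + (T * c - 1) := by ring
        rw [this]
        exact dvd_add (Dvd.dvd.mul_right hz c) h3
      · right
        have : ((q1 * q2 : ℕ) : ℤ) * c + 1 = (((q1 * q2 : ℕ) : ℤ) - T) * c + (T * c + 1) := by ring
        rw [this]
        exact dvd_add (Dvd.dvd.mul_right hz c) h3
  · refine Exp84.from_primes c d hd e he [q1, q2, q3] ?_ ?_ ?_
    · simp only [List.nodup_cons, List.mem_cons, List.not_mem_nil, or_false, not_false_eq_true,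
        List.nodup_nil, and_true]
      omega
    · intro q hq
      simp only [List.mem_cons, List.not_mem_nil, or_false] at hq
      rcases hq with rfl | rfl | rfl
      · exact good_spec he hKphi g1
      · exact good_spec he hKphi g2
      · exact good_spec he hKphi g3
    · have hz : d ∣ ((q1 * (q2 * q3) : ℕ) : ℤ) + T := by
        have h3 : ((K : ℕ) : ℤ) ∣ ((q1 * q2 * q3 + T : ℕ) : ℤ) := Int.natCast_dvd_natCast.mpr hp
        have h4 := dvd_trans hKd h3
        push_cast at h4 ⊢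
        rw [← mul_assoc]
        exact h4
      simp only [List.prod_cons, List.prod_nil, mul_one]
      rcases hTc with h3 | h3
      · right
        have : ((q1 * (q2 * q3) : ℕ) : ℤ) * c + 1 =
            (((q1 * (q2 * q3) : ℕ) : ℤ) + T) * c - (T * c - 1) := by ring
        rw [this]
        exact dvd_sub (Dvd.dvd.mul_right hz c) h3
      · left
        have : ((q1 * (q2 * q3) : ℕ) : ℤ) * c - 1 =
            (((q1 * (q2 * q3) : ℕ) : ℤ) + T) * c - (T * c + 1) := by ring
        rw [this]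
        exact dvd_sub (Dvd.dvd.mul_right hz c) h3

end Pool.Agent.Lib.MP_efa98f_al.U77
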