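import Mathlib

/-!
# MP_efa98f_al: choice of two or three primes with prescribed product and equal Jacobi symbols
-/

set_option linter.style.haveILetI false

namespace Pool.Agent.Lib.MP_efa98f_al.U77

/-- A prime `q = -1 mod 12` with symbol `e`, not `1` modulo the primes `≥ 5` dividing `K`. -/
def Good (K : ℕ) (d e : ℤ) (q : ℕ) : Prop :=
  q.Prime ∧ q % 12 = 11 ∧ jacobiSym d q = e ∧ ∀ l : ℕ, l.Prime → 5 ≤ l → l ∣ K → q % l ≠ 1

theorem prime_solve {K a b : ℕ} (hK : K ≠ 0) (ha : Nat.Coprime a K) (hb : Nat.Coprime b K) (B : ℕ) :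
    ∃ q : ℕ, q.Prime ∧ B < q ∧ q * a ≡ b [MOD K] := by
  haveI : NeZero K := ⟨hK⟩
  have hu : IsUnit (((ZMod.unitOfCoprime a ha)⁻¹ * ZMod.unitOfCoprime b hb : (ZMod K)ˣ) : ZMod K) :=
    Units.isUnit _
  obtain ⟨q, hq1, hq2, hq3⟩ := Nat.forall_exists_prime_gt_and_eq_mod hu B
  refine ⟨q, hq2, hq1, ?_⟩
  rw [← ZMod.natCast_eq_natCast_iff]
  push_cast
  rw [hq3]
  have h1 : (a : ZMod K) = (ZMod.unitOfCoprime a ha : (ZMod K)ˣ) := rfl
  have h2 : (b : ZMod K) = (ZMod.unitOfCoprime b hb : (ZMod K)ˣ) := rfl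
  rw [h1, h2, ← Units.val_mul]
  congr 1
  rw [mul_comm, mul_inv_cancel_left]

theorem prime_solve' {K a b : ℕ} (hK : K ≠ 0) (ha : Nat.Coprime a K) (hb : Nat.Coprime b K) (B : ℕ) :
    ∃ q : ℕ, q.Prime ∧ B < q ∧ K ∣ q * a + b := by
  haveI : NeZero K := ⟨hK⟩
  have hu : IsUnit (-((ZMod.unitOfCoprime a ha)⁻¹ * ZMod.unitOfCoprime b hb : (ZMod K)ˣ) : ZMod K) :=
    (Units.isUnit _).neg
  obtain ⟨q, hq1, hq2, hq3⟩ := Nat.forall_exists_prime_gt_and_eq_mod hu B
  refine ⟨q, hq2, hq1, ?_⟩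
  rw [← ZMod.natCast_eq_zero_iff]
  push_cast
  rw [hq3]
  have h1 : (a : ZMod K) = (ZMod.unitOfCoprime a ha : (ZMod K)ˣ) := rfl
  have h2 : (b : ZMod K) = (ZMod.unitOfCoprime b hb : (ZMod K)ˣ) := rfl
  rw [h1, h2, neg_mul, ← Units.val_mul]
  have h3 : (ZMod.unitOfCoprime a ha)⁻¹ * ZMod.unitOfCoprime b hb * ZMod.unitOfCoprime a ha =
      ZMod.unitOfCoprime b hb := by rw [mul_comm, mul_inv_cancel_left]
  rw [h3]
  ring

theorem jac_congr {d : ℤ} {K m n : ℕ} (hK : 4 * d.natAbs ∣ K) (hm : m % 2 = 1) (hn : n % 2 = 1)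
    (h : m ≡ n [MOD K]) : jacobiSym d m = jacobiSym d n := by
  rw [jacobiSym.mod_right d (Nat.odd_iff.mpr hm), jacobiSym.mod_right d (Nat.odd_iff.mpr hn)]
  have : m ≡ n [MOD (4 * d.natAbs)] := h.of_dvd hK
  rw [this]

theorem jac_ne_zero {d : ℤ} {K n : ℕ} (hK : 4 * d.natAbs ∣ K) (hc : Nat.Coprime n K) :
    jacobiSym d n ≠ 0 := by
  apply jacobiSym.ne_zero
  have h1 : d.natAbs ∣ K := dvd_trans (Dvd.intro_left 4 rfl) hK
  have h2 : Nat.Coprime d.natAbs n := (Nat.Coprime.coprime_dvd_right h1 hc).symm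
  simpa [Int.gcd] using h2

theorem jac_pm {d : ℤ} {n : ℕ} (h : jacobiSym d n ≠ 0) : jacobiSym d n = 1 ∨ jacobiSym d n = -1 := by
  rcases jacobiSym.trichotomy d n with h1 | h1 | h1
  · exact absurd h1 h
  · exact Or.inl h1
  · exact Or.inr h1

/-- A prime larger than `K ≠ 0` is prime to `K`. -/
theorem cop_of_lt {K q : ℕ} (hK : K ≠ 0) (hq : q.Prime) (h : K < q) : Nat.Coprime q K :=
  (Nat.Prime.coprime_iff_not_dvd hq).mpr fun hd => by
    have := Nat.le_of_dvd (Nat.pos_of_ne_zero hK) hd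
    omega

theorem cast_congr {K l m n : ℕ} (hl : l ∣ K) (h : m ≡ n [MOD K]) : (m : ZMod l) = n :=
  (ZMod.natCast_eq_natCast_iff m n l).mpr (h.of_dvd hl)

/-- the local situation at a prime `l ≥ 5` -/
theorem loc {l v T : ℕ} (hl : l.Prime) (h5 : 5 ≤ l)
    (h : (l ∣ T + 1 → v % l = 2) ∧ (¬ l ∣ T + 1 → l ∣ v + 1)) (hT : Nat.Coprime T l) :
    (2 : ZMod l) ≠ 0 ∧ (3 : ZMod l) ≠ 0 ∧ (T : ZMod l) ≠ 0 ∧
      (((T : ZMod l) ≠ -1 ∧ (v : ZMod l) = -1) ∨ ((T : ZMod l) = -1 ∧ (v : ZMod l) = 2)) := by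
  haveI : Fact l.Prime := ⟨hl⟩
  refine ⟨?_, ?_, ?_, ?_⟩
  · intro h2
    have : ((2 : ℕ) : ZMod l) = 0 := by exact_mod_cast h2
    rw [ZMod.natCast_eq_zero_iff] at this
    have := Nat.le_of_dvd (by norm_num) this
    omega
  · intro h2
    have : ((3 : ℕ) : ZMod l) = 0 := by exact_mod_cast h2
    rw [ZMod.natCast_eq_zero_iff] at this
    have := Nat.le_of_dvd (by norm_num) this
    omega
  · intro h2
    rw [ZMod.natCast_eq_zero_iff] at h2
    have := Nat.Coprime.eq_one_of_dvd (Nat.Coprime.symm hT) h2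
    omega
  · by_cases hd : l ∣ T + 1
    · right
      refine ⟨?_, ?_⟩
      · have := (ZMod.natCast_eq_zero_iff (T + 1) l).mpr hd
        push_cast at this
        linear_combination this
      · have h2 := h.1 hd
        have : v ≡ 2 [MOD l] := by
          unfold Nat.ModEq
          rw [h2, Nat.mod_eq_of_lt (by omega)]
        have := (ZMod.natCast_eq_natCast_iff v 2 l).mpr this
        exact_mod_cast this
    · left
      refine ⟨?_, ?_⟩
      · intro hT1
        apply hd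
        rw [← ZMod.natCast_eq_zero_iff]
        push_cast
        rw [hT1]
        ring
      · have := (ZMod.natCast_eq_zero_iff (v + 1) l).mpr (h.2 hd)
        push_cast at this
        linear_combination this

theorem ne_one_of_cast {l q : ℕ} (h5 : 5 ≤ l) (h : (q : ZMod l) ≠ 1) : q % l ≠ 1 := by
  intro h1
  apply h
  have : q ≡ 1 [MOD l] := by
    unfold Nat.ModEq
    rw [h1, Nat.mod_eq_of_lt (by omega)]
  have := (ZMod.natCast_eq_natCast_iff q 1 l).mpr this
  exact_mod_cast this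

theorem choice {K T v : ℕ} {d : ℤ} (hK : K ≠ 0) (hK4 : 4 * d.natAbs ∣ K) (h12 : 12 ∣ K)
    (hTK : Nat.Coprime T K) (hT12 : T % 12 = 1) (hvK : Nat.Coprime v K) (hv12 : v % 12 = 11)
    (hv : ∀ l : ℕ, l.Prime → 5 ≤ l → l ∣ K →
      ((l ∣ T + 1 → v % l = 2) ∧ (¬ l ∣ T + 1 → l ∣ v + 1))) :
    (∃ (e : ℤ) (q1 q2 : ℕ), (e = 1 ∨ e = -1) ∧ q1 < q2 ∧ Good K d e q1 ∧ Good K d e q2 ∧
      q1 * q2 ≡ T [MOD K]) ∨
    (∃ (e : ℤ) (q1 q2 q3 : ℕ), (e = 1 ∨ e = -1) ∧ q1 < q2 ∧ q2 < q3 ∧ Good K d e q1 ∧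
      Good K d e q2 ∧ Good K d e q3 ∧ K ∣ q1 * q2 * q3 + T) := by
  have hT0 := jac_ne_zero hK4 hTK
  have hv0 := jac_ne_zero hK4 hvK
  have hlocal : ∀ l : ℕ, l.Prime → 5 ≤ l → l ∣ K →
      (2 : ZMod l) ≠ 0 ∧ (3 : ZMod l) ≠ 0 ∧ (T : ZMod l) ≠ 0 ∧
      (((T : ZMod l) ≠ -1 ∧ (v : ZMod l) = -1) ∨ ((T : ZMod l) = -1 ∧ (v : ZMod l) = 2)) :=
    fun l hl h5 hlK => loc hl h5 (hv l hl h5 hlK) (Nat.Coprime.coprime_dvd_right hlK hTK)
  rcases jac_pm hT0 with hJ | hJ
  · left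
    obtain ⟨q1, hq1, hB1, hc1⟩ := prime_solve hK (Nat.coprime_one_left K) hvK K
    obtain ⟨q2, hq2, hB2, hc2⟩ := prime_solve hK hvK hTK q1
    rw [mul_one] at hc1
    have hprod : q1 * q2 ≡ T [MOD K] := by
      calc q1 * q2 ≡ v * q2 [MOD K] := Nat.ModEq.mul_right _ hc1
        _ = q2 * v := by ring
        _ ≡ T [MOD K] := hc2
    have hq1m : q1 % 12 = 11 := by
      have := hc1.of_dvd h12
      unfold Nat.ModEq at this
      omega
    have hq2m : q2 % 12 = 11 := by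
      have := hc2.of_dvd h12
      unfold Nat.ModEq at this
      rw [Nat.mul_mod, hv12, hT12] at this
      omega
    have hJ12 : jacobiSym d q1 * jacobiSym d q2 = 1 := by
      haveI : NeZero q1 := ⟨hq1.ne_zero⟩
      haveI : NeZero q2 := ⟨hq2.ne_zero⟩
      rw [← jacobiSym.mul_right, jac_congr hK4 _ _ hprod, hJ]
      · rw [Nat.mul_mod]
        have h1 : q1 % 2 = 1 := by omega
        have h2 : q2 % 2 = 1 := by omega
        rw [h1, h2]
      · omega
    have hz1 : jacobiSym d q1 ≠ 0 := by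
      intro h0
      rw [h0] at hJ12
      norm_num at hJ12
    refine ⟨jacobiSym d q1, q1, q2, jac_pm hz1, hB2, ⟨hq1, hq1m, rfl, ?_⟩, ⟨hq2, hq2m, ?_, ?_⟩, hprod⟩
    · intro l hl h5 hlK
      haveI : Fact l.Prime := ⟨hl⟩
      apply ne_one_of_cast h5
      obtain ⟨n2, n3, nT, h⟩ := hlocal l hl h5 hlK
      have e1 := cast_congr hlK hc1
      rw [e1]
      rcases h with ⟨_, h2⟩ | ⟨_, h2⟩
      · rw [h2]; intro h0; apply n2; linear_combination -h0
      · rw [h2]; intro h0; apply n2; linear_combination 2 * h0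
    · rcases jac_pm hz1 with h1 | h1
      · rw [h1, one_mul] at hJ12
        rw [h1, hJ12]
      · rw [h1] at hJ12 ⊢
        linarith
    · intro l hl h5 hlK
      haveI : Fact l.Prime := ⟨hl⟩
      apply ne_one_of_cast h5
      obtain ⟨n2, n3, nT, h⟩ := hlocal l hl h5 hlK
      have e1 := cast_congr hlK hc2
      push_cast at e1
      intro h0
      rw [h0, one_mul] at e1
      rcases h with ⟨h1, h2⟩ | ⟨h1, h2⟩
      · apply h1; rw [← e1, h2]
      · apply n3
        rw [h1, h2] at e1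
        linear_combination e1
  · right
    obtain ⟨N, hN, hNB, hNc⟩ := prime_solve' hK (Nat.coprime_one_left K) hTK K
    rw [mul_one] at hNc
    have hNK : Nat.Coprime N K := cop_of_lt hK hN hNB
    have hN0 := jac_ne_zero hK4 hNK
    have hKe : 2 ∣ K := dvd_trans (by norm_num) h12
    have hNodd : N % 2 = 1 := by
      have : 2 ∣ N + T := dvd_trans hKe hNc
      omega
    -- choice of `w`
    obtain ⟨w, hwK, hw12, hwJ, hwl⟩ : ∃ w : ℕ, Nat.Coprime w K ∧ w % 12 = 11 ∧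
        jacobiSym d w = jacobiSym d N ∧ (w = v ∨ w = v * T) := by
      by_cases hcase : jacobiSym d v = jacobiSym d N
      · exact ⟨v, hvK, hv12, hcase, Or.inl rfl⟩
      · refine ⟨v * T, Nat.Coprime.mul_left hvK hTK, ?_, ?_, Or.inr rfl⟩
        · rw [Nat.mul_mod, hv12, hT12]
        · haveI : NeZero v := ⟨by rintro rfl; omega⟩
          haveI : NeZero T := ⟨by rintro rfl; omega⟩
          rw [jacobiSym.mul_right, hJ]
          rcases jac_pm hv0 with h1 | h1 <;> rcases jac_pm hN0 with h2 | h2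
          · exact absurd (h1.trans h2.symm) hcase
          · rw [h1, h2]; norm_num
          · rw [h1, h2]; norm_num
          · exact absurd (h1.trans h2.symm) hcase
    have hwodd : w % 2 = 1 := by omega
    obtain ⟨q1, hq1, hB1, hc1⟩ := prime_solve hK (Nat.coprime_one_left K) hwK K
    obtain ⟨q2, hq2, hB2, hc2⟩ := prime_solve hK (Nat.coprime_one_left K) hwK q1
    obtain ⟨q3, hq3, hB3, hc3⟩ := prime_solve' hK (Nat.Coprime.mul_left hwK hwK) hTK q2
    rw [mul_one] at hc1 hc2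
    have hq1m : q1 % 12 = 11 := by
      have := hc1.of_dvd h12
      unfold Nat.ModEq at this
      omega
    have hq2m : q2 % 12 = 11 := by
      have := hc2.of_dvd h12
      unfold Nat.ModEq at this
      omega
    have hq3m : q3 % 12 = 11 := by
      have h1 : 12 ∣ q3 * (w * w) + T := dvd_trans h12 hc3
      have h2 : (q3 * (w * w) + T) % 12 = 0 := Nat.mod_eq_zero_of_dvd h1
      have h3 : (w * w) % 12 = 1 := by rw [Nat.mul_mod, hw12]
      rw [Nat.add_mod, Nat.mul_mod, h3, hT12] at h2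
      omega
    have hJ1 : jacobiSym d q1 = jacobiSym d N := by
      rw [jac_congr hK4 (by omega) hwodd hc1, hwJ]
    have hJ2 : jacobiSym d q2 = jacobiSym d N := by
      rw [jac_congr hK4 (by omega) hwodd hc2, hwJ]
    have hprod : K ∣ q1 * q2 * q3 + T := by
      have h1 : q3 * (q1 * q2) + T ≡ q3 * (w * w) + T [MOD K] :=
        Nat.ModEq.add_right _ (Nat.ModEq.mul_left _ (Nat.ModEq.mul hc1 hc2))
      have h2 : q3 * (w * w) + T ≡ 0 [MOD K] := (Nat.modEq_zero_iff_dvd).mpr hc3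
      have h3 := (Nat.modEq_zero_iff_dvd).mp (h1.trans h2)
      have h4 : q1 * q2 * q3 + T = q3 * (q1 * q2) + T := by ring
      rw [h4]; exact h3
    have hprodN : q1 * q2 * q3 ≡ N [MOD K] := by
      have h1 : q1 * q2 * q3 + T ≡ N + T [MOD K] :=
        ((Nat.modEq_zero_iff_dvd).mpr hprod).trans ((Nat.modEq_zero_iff_dvd).mpr hNc).symm
      exact Nat.ModEq.add_right_cancel' T h1
    have hJ3 : jacobiSym d q3 = jacobiSym d N := by
      have h1 : jacobiSym d (q1 * q2 * q3) = jacobiSym d N := by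
        apply jac_congr hK4 _ hNodd hprodN
        rw [Nat.mul_mod, Nat.mul_mod q1 q2]
        have h1 : q1 % 2 = 1 := by omega
        have h2 : q2 % 2 = 1 := by omega
        have h3 : q3 % 2 = 1 := by omega
        rw [h1, h2, h3]
      haveI : NeZero q1 := ⟨hq1.ne_zero⟩
      haveI : NeZero q2 := ⟨hq2.ne_zero⟩
      haveI : NeZero q3 := ⟨hq3.ne_zero⟩
      haveI : NeZero (q1 * q2) := ⟨mul_ne_zero hq1.ne_zero hq2.ne_zero⟩
      rw [jacobiSym.mul_right, jacobiSym.mul_right, hJ1, hJ2] at h1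
      rcases jac_pm hN0 with h2 | h2
      · rw [h2] at h1 ⊢; linarith
      · rw [h2] at h1 ⊢; linarith
    have hw1 : ∀ l : ℕ, l.Prime → 5 ≤ l → l ∣ K → (w : ZMod l) ≠ 1 := by
      intro l hl h5 hlK
      haveI : Fact l.Prime := ⟨hl⟩
      obtain ⟨n2, n3, nT, h⟩ := hlocal l hl h5 hlK
      rcases hwl with rfl | rfl
      · rcases h with ⟨_, h2⟩ | ⟨_, h2⟩
        · rw [h2]; intro h0; apply n2; linear_combination -h0
        · rw [h2]; intro h0; apply n2; linear_combination 2 * h0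
      · push_cast
        rcases h with ⟨h1, h2⟩ | ⟨h1, h2⟩
        · rw [h2]; intro h0; apply h1; linear_combination -h0
        · rw [h1, h2]; intro h0; apply n3; linear_combination -h0
    refine ⟨jacobiSym d N, q1, q2, q3, jac_pm hN0, hB2, hB3, ⟨hq1, hq1m, hJ1, ?_⟩,
      ⟨hq2, hq2m, hJ2, ?_⟩, ⟨hq3, hq3m, hJ3, ?_⟩, hprod⟩
    · intro l hl h5 hlK
      apply ne_one_of_cast h5
      rw [cast_congr hlK hc1]
      exact hw1 l hl h5 hlK
    · intro l hl h5 hlK
      apply ne_one_of_cast h5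
      rw [cast_congr hlK hc2]
      exact hw1 l hl h5 hlK
    · intro l hl h5 hlK
      haveI : Fact l.Prime := ⟨hl⟩
      apply ne_one_of_cast h5
      obtain ⟨n2, n3, nT, h⟩ := hlocal l hl h5 hlK
      have e1 := (ZMod.natCast_eq_zero_iff (q3 * (w * w) + T) l).mpr (dvd_trans hlK hc3)
      push_cast at e1
      intro h0
      rw [h0, one_mul] at e1
      rcases hwl with rfl | rfl
      · rcases h with ⟨h1, h2⟩ | ⟨h1, h2⟩
        · rw [h2] at e1; apply h1; linear_combination e1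
        · rw [h1, h2] at e1; apply n3; linear_combination e1
      · push_cast at e1
        rcases h with ⟨h1, h2⟩ | ⟨h1, h2⟩
        · rw [h2] at e1
          have h3 : (T : ZMod l) * (T + 1) = 0 := by linear_combination e1
          rcases mul_eq_zero.mp h3 with h4 | h4
          · exact nT h4
          · apply h1; linear_combination h4
        · rw [h1, h2] at e1; apply n3; linear_combination e1

end Pool.Agent.Lib.MP_efa98f_al.U77
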